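import Pool.Agent.H12.KP.Targets4

/-!
# Row FORMS of `kpi_modules`: choice of the two forms
-/

set_option autoImplicit false

namespace Pool.Agent.H2.KP

open Pool.Agent.H12.KP Polynomial TensorProduct

universe u v

section

variable {A D : Type u} [CommRing A] [CommRing D] [Algebra A D] (𝒟 : ℕ → Submodule A D)
  [GradedAlgebra 𝒟]

/-- the minimal primes over a homogeneous element are homogeneous -/
theorem min_hom (π : A) (y : Ideal D) (hy : y ∈ (Ideal.span {algebraMap A D π}).minimalPrimes) :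
    y.IsHomogeneous 𝒟 := by
  have hyp : y.IsPrime := hy.1.1
  have h1 : (Ideal.homogeneousCore 𝒟 y).toIdeal.IsPrime := hyp.homogeneousCore
  have h2 : (Ideal.homogeneousCore 𝒟 y).toIdeal ≤ y := Ideal.toIdeal_homogeneousCore_le 𝒟 y
  have h3 : Ideal.span {algebraMap A D π} ≤ (Ideal.homogeneousCore 𝒟 y).toIdeal := by
    rw [Ideal.span_singleton_le_iff_mem]
    refine Ideal.mem_homogeneousCore_of_homogeneous_of_mem ?_ ?_
    · exact ⟨0, SetLike.algebraMap_mem_graded 𝒟 π⟩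
    · exact hy.1.2 (Ideal.mem_span_singleton_self _)
  have h4 : y ≤ (Ideal.homogeneousCore 𝒟 y).toIdeal := hy.2 ⟨h1, h3⟩ h2
  have h5 : y = (Ideal.homogeneousCore 𝒟 y).toIdeal := le_antisymm h4 h2
  rw [h5]
  exact HomogeneousIdeal.isHomogeneous _

end

theorem pf_FORMS (hAV : S_AVOID.{u,u}) (hFP : S_FINPT.{u,u}) (hNK : S_NAK.{u,u}) :
    S_FORMS.{u} := by
  classical
  intro A D _ _ _ _ _ _ 𝒟 _ π hπ hRC x hx m β hβm hβx hβy
  have hπm : π ∈ IsLocalRing.maximalIdeal A := (IsLocalRing.mem_maximalIdeal _).2 hπ.not_isUnit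
  have hft : Algebra.FiniteType A D := by
    obtain ⟨S, hS⟩ := hRC.fg
    refine ⟨⟨S, ?_⟩⟩
    rw [← Algebra.adjoin_span, hS]
    exact hRC.gen
  have : IsNoetherianRing D := Algebra.FiniteType.isNoetherianRing A D
  obtain ⟨hxR, hxπ, hxmax⟩ := hx
  -- the generic points of the special fibre
  have hYf : {y : Ideal D | y ∈ (Ideal.span {algebraMap A D π}).minimalPrimes ∧ Rel 𝒟 y}.Finite :=
    (Ideal.finite_minimalPrimes_of_isNoetherianRing D _).subset (fun y hy => hy.1)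
  obtain ⟨hZf, hZc⟩ := hFP A D 𝒟 π hRC.dim m β hβm hβy
  -- the first form
  obtain ⟨n0, hn0, l0, hl0, hl0x, hl0P⟩ := hAV A D 𝒟 x hxR.2.1
    ((hZf.toFinset.erase x) ∪ hYf.toFinset)
    (by
      intro P hP
      rcases Finset.mem_union.1 hP with h | h
      · exact ((hZf.mem_toFinset).1 (Finset.mem_of_mem_erase h)).1
      · exact ((hYf.mem_toFinset).1 h).2)
    (by
      intro P hP hle
      rcases Finset.mem_union.1 hP with h | h
      · exact Finset.ne_of_mem_erase h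
          (hxmax P ((hZf.mem_toFinset).1 (Finset.mem_of_mem_erase h)).1 hle)
      · have h1 := (hYf.mem_toFinset).1 h
        exact hβy P h1.1 h1.2 (hle hβx))
  have hl0Y : ∀ y ∈ (Ideal.span {algebraMap A D π}).minimalPrimes, Rel 𝒟 y → l0 ∉ y :=
    fun y hy hyR => hl0P y (Finset.mem_union_right _ ((hYf.mem_toFinset).2 ⟨hy, hyR⟩))
  obtain ⟨hZ0f, hZ0c⟩ := hFP A D 𝒟 π hRC.dim n0 l0 hl0 hl0Y
  -- the second form
  have hIhom : ((hZf.toFinset.erase x).inf id : Ideal D).IsHomogeneous 𝒟 := by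
    rw [Finset.inf_eq_iInf]
    refine Ideal.IsHomogeneous.iInf₂ (fun P hP => ?_)
    exact ((hZf.mem_toFinset).1 (Finset.mem_of_mem_erase hP)).1.2.1
  obtain ⟨n1, hn1, l1, hl1, hl1I, hl1P⟩ := hAV A D 𝒟 ((hZf.toFinset.erase x).inf id) hIhom
    hZ0f.toFinset
    (fun P hP => ((hZ0f.mem_toFinset).1 hP).1)
    (by
      intro P hP hle
      have hP' := (hZ0f.mem_toFinset).1 hP
      obtain ⟨z, hz, hzP⟩ := (Ideal.IsPrime.inf_le' hP'.1.1).1 hle
      have hz' := (hZf.mem_toFinset).1 (Finset.mem_of_mem_erase hz)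
      have hzc := hZc z hz'.1 hz'.2.1 hz'.2.2
      have heq : P = z := hzc.2.2 P hP'.1 hzP
      rw [heq] at hP'
      exact hl0P z (Finset.mem_union_left _ hz) hP'.2.2)
  have hx0 : x ∈ hZ0f.toFinset := (hZ0f.mem_toFinset).2 ⟨hxR, hxπ, hl0x⟩
  have hl1x : l1 ∉ x := hl1P x hx0
  -- powers
  have hm0 : l0 ^ n1 ∈ 𝒟 (n0 * n1) := by
    have := SetLike.pow_mem_graded n1 hl0
    rw [smul_eq_mul, mul_comm] at this
    exact this
  have hm1 : l1 ^ n0 ∈ 𝒟 (n0 * n1) := by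
    have := SetLike.pow_mem_graded n0 hl1
    rw [smul_eq_mul] at this
    exact this
  have hcond : ∀ P : Ideal D, Rel 𝒟 P → algebraMap A D π ∈ P → l0 ^ n1 ∈ P → l1 ^ n0 ∉ P := by
    intro P hP hπP hlP h
    have h1 : l0 ∈ P := hP.1.mem_of_pow_mem _ hlP
    exact hl1P P ((hZ0f.mem_toFinset).2 ⟨hP, hπP, h1⟩) (hP.1.mem_of_pow_mem _ h)
  have hΔ : 0 < n0 * n1 := Nat.mul_pos hn0 hn1
  obtain ⟨d0, hd0⟩ := hNK A D 𝒟 π hπm hRC.fg hRC.gen (n0 * n1) hΔ _ hm0 _ hm1 hcond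
  have hl0ne : l0 ≠ 0 := by
    intro h0
    have := hxR.1
    obtain ⟨y, hy, hyx⟩ := Ideal.exists_minimalPrimes_le
      ((Ideal.span_singleton_le_iff_mem (I := x) (x := algebraMap A D π)).2 hxπ)
    have hyR : Rel 𝒟 y := ⟨hy.1.1, min_hom 𝒟 π y hy, fun h => hxR.2.2 (fun z hz => hyx (h hz))⟩
    exact hl0Y y hy hyR (h0 ▸ y.zero_mem)
  have hl1ne : l1 ≠ 0 := by
    intro h0
    exact hl1x (h0 ▸ x.zero_mem)
  refine ⟨n0 * n1, d0, l0 ^ n1, l1 ^ n0, ⟨hΔ, hm0, hm1, pow_ne_zero _ hl0ne, pow_ne_zero _ hl1ne,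
    hd0⟩, ?_, ?_, ?_, hcond⟩
  · exact Ideal.pow_mem_of_mem _ hl0x _ hn1
  · intro h
    exact hl1x (hxR.1.mem_of_pow_mem _ h)
  · intro P hP hβP hPx
    have h1 : P ∈ hZf.toFinset.erase x :=
      Finset.mem_erase.2 ⟨hPx, (hZf.mem_toFinset).2 ⟨hP.1, hP.2.1, hβP⟩⟩
    have h2 : (hZf.toFinset.erase x).inf id ≤ P := Finset.inf_le (f := id) h1
    exact Ideal.pow_mem_of_mem _ (h2 hl1I) _ hn0

end Pool.Agent.H2.KP
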